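import Pool.Agent.H59.PG.Stmts

/-!
# Parity games, row PRN: pruning of lists of games
-/

set_option autoImplicit false

namespace Pool.PG

namespace PRNx

lemma pr1_step {w : List Game → ℕ} {M v n : ℕ} (hS : Sel w M v n) (T : List Game)
    (hT : ∀ t ∈ T, Valid t ∧ t.length = n) :
    (∀ t ∈ pr1 w M T, t ∈ T) ∧
    ((pr1 w M T).length < M ∨ (pr1 w M T).length + 1 ≤ T.length) ∧
    ((∃ t ∈ pr1 w M T, win t v = true) ↔ ∃ t ∈ T, win t v = true) := by
  unfold pr1
  by_cases h : T.length < M
  · rw [if_pos h]
    exact ⟨fun t ht => ht, Or.inl h, Iff.rfl⟩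
  · rw [if_neg h]
    have hlen : (T.take M).length = M := by rw [List.length_take]; omega
    obtain ⟨h1, h2⟩ := hS (T.take M) hlen (fun t ht => hT t (List.mem_of_mem_take ht))
    set i := w (T.take M) with hi
    have hiT : i < T.length := by omega
    refine ⟨fun t ht => List.mem_of_mem_eraseIdx ht, Or.inr ?_, ?_⟩
    · rw [List.length_eraseIdx_of_lt hiT]; omega
    · constructor
      · rintro ⟨t, ht, hw⟩
        exact ⟨t, List.mem_of_mem_eraseIdx ht, hw⟩
      · rintro ⟨t, ht, hw⟩
        obtain ⟨j, hj, hjt⟩ := List.mem_iff_getElem.1 ht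
        by_cases hji : j = i
        · push Not at h2
          obtain ⟨k, hk, h3⟩ := h2
          have hkT : k < T.length := by omega
          have hget : ∀ k, (hk : k < M) → (hkT : k < T.length) →
              (T.take M).getD k [] = T[k] := by
            intro k hk hkT
            rw [List.getD_eq_getElem _ _ (by rw [hlen]; exact hk), List.getElem_take]
          rw [hget k hk hkT] at h3
          rcases h3 with ⟨h4, h5⟩ | ⟨h4, h5⟩
          · exact ⟨T[k], (List.mem_eraseIdx_iff_getElem).2 ⟨k, hkT, h5, rfl⟩, h4⟩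
          · exfalso
            apply h4
            have : T[k] = t := by
              rw [← hjt]
              congr 1
              omega
            rw [this]
            exact hw
        · exact ⟨t, (List.mem_eraseIdx_iff_getElem).2 ⟨j, hj, hji, hjt⟩, hw⟩

lemma pr1_iter {w : List Game → ℕ} {M v n : ℕ} (hS : Sel w M v n) (k : ℕ) : ∀ T : List Game,
    (∀ t ∈ T, Valid t ∧ t.length = n) →
    (∀ t ∈ (pr1 w M)^[k] T, t ∈ T) ∧
    (((pr1 w M)^[k] T).length < M ∨ ((pr1 w M)^[k] T).length + k ≤ T.length) ∧
    ((∃ t ∈ (pr1 w M)^[k] T, win t v = true) ↔ ∃ t ∈ T, win t v = true) := by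
  induction k with
  | zero =>
    intro T _
    exact ⟨fun t ht => ht, Or.inr (by simp), Iff.rfl⟩
  | succ k ih =>
    intro T hT
    obtain ⟨a1, a2, a3⟩ := ih T hT
    rw [Function.iterate_succ_apply']
    set T1 := (pr1 w M)^[k] T
    obtain ⟨b1, b2, b3⟩ := pr1_step hS T1 (fun t ht => hT t (a1 t ht))
    refine ⟨fun t ht => a1 t (b1 t ht), ?_, b3.trans a3⟩
    rcases b2 with b2 | b2
    · exact Or.inl b2
    · rcases a2 with a2 | a2
      · left; omega
      · right; omega

end PRNx

open PRNx in
theorem prn_row : PRNStmt := by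
  intro w M v n hM hS T hT
  obtain ⟨h1, h2, h3⟩ := pr1_iter hS T.length T hT
  have hl : ((pr1 w M)^[T.length] T).length < M := by
    rcases h2 with h2 | h2
    · exact h2
    · omega
  have he : prn w M T = (pr1 w M)^[T.length] T := by
    unfold prn
    exact List.take_of_length_le hl.le
  rw [he]
  exact ⟨h1, hl, h3⟩

end Pool.PG
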