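import Pool.Agent.H59.PG.Stmts

/-!
# Parity games, row SWT: the selector from tuples of answers
-/

set_option autoImplicit false

namespace Pool.PG

namespace SWTx

lemma mem_bt (m : ℕ) : ∀ r : List Bool, r ∈ bt m ↔ r.length = m := by
  induction m with
  | zero =>
    intro r
    simp [bt]
  | succ m ih =>
    intro r
    rw [bt, List.mem_append, List.mem_map, List.mem_map]
    constructor
    · rintro (⟨s, hs, rfl⟩ | ⟨s, hs, rfl⟩)
      · rw [List.length_cons, (ih s).1 hs]
      · rw [List.length_cons, (ih s).1 hs]
    · intro h
      cases r with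
      | nil => simp at h
      | cons b s =>
        rw [List.length_cons] at h
        have hs : s ∈ bt m := (ih s).2 (by omega)
        cases b
        · right; exact ⟨s, hs, rfl⟩
        · left; exact ⟨s, hs, rfl⟩

lemma length_bt (m : ℕ) : (bt m).length = 2 ^ m := by
  induction m with
  | zero => rfl
  | succ m ih =>
    rw [bt, List.length_append, List.length_map, List.length_map, ih, pow_succ]
    omega

end SWTx

open SWTx in
theorem swt_row (hORG : ORGStmt) (hSLC : SLCStmt) (hSOL : SOLStmt) (hAGM : AGMStmt) :
    SWTStmt := by
  intro A m n v hv hA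
  refine ⟨length_bt m, ?_⟩
  intro ts hts hval
  set C := bt m with hC
  have hCl : C.length = 2 ^ m := length_bt m
  set l : List (Game × ℕ) := (List.range m).map fun x => (org n v (sel C x ts), 0) with hl
  set f := A l with hf
  set q : ℕ → ℕ := fun k => agr f 1 (C.getD k []) with hq
  have hw : wt A m C n v ts = argm q C.length := rfl
  obtain ⟨h1, h2⟩ := hAGM q C.length (by rw [hCl]; positivity)
  have horg : ∀ x, Valid (org n v (sel C x ts)) ∧
      (org n v (sel C x ts)).length = 1 + (sel C x ts).length * n ∧
      (win (org n v (sel C x ts)) 0 = true ↔ ∃ t ∈ sel C x ts, win t v = true) := by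
    intro x
    exact hORG n v (sel C x ts) hv
      (fun t ht => hval t ((hSLC C x ts (by rw [hts, hCl])).1 t ht))
  -- the word of the negated answers
  set c0 : List Bool := (List.range m).map fun x => !f.getD x false with hc0
  have hc0m : c0 ∈ C := (mem_bt m c0).2 (by rw [hc0]; simp)
  obtain ⟨k0, hk0, hk0c⟩ := List.mem_iff_getElem.1 hc0m
  have hgetc : ∀ x < m, c0.getD x false = !f.getD x false := by
    intro x hx
    rw [hc0, List.getD_eq_getElem _ _ (by simpa using hx), List.getElem_map, List.getElem_range]
  have hq0 : q k0 = 0 := by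
    have e1 : C.getD k0 [] = c0 := by rw [List.getD_eq_getElem _ _ hk0, hk0c]
    have e2 : c0.length = m := by rw [hc0]; simp
    simp only [hq, e1, agr, e2]
    apply List.sum_eq_zero
    intro y hy
    obtain ⟨x, hx, rfl⟩ := List.mem_map.1 hy
    rw [List.mem_range] at hx
    rw [List.length_eq_zero_iff, List.filter_eq_nil_iff]
    intro u hu
    rw [List.mem_range] at hu
    have hu0 : u = 0 := by omega
    subst hu0
    rw [mul_one, add_zero, hgetc x hx]
    cases f.getD x false <;> decide
  have hk : q (argm q C.length) = 0 := by
    have := h2 k0 hk0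
    omega
  set k := argm q C.length with hkdef
  have hcl : (C.getD k []).length = m := by
    rw [List.getD_eq_getElem _ _ h1]
    exact (mem_bt m _).1 (List.getElem_mem h1)
  have hne : ∀ x < m, f.getD x false ≠ (C.getD k []).getD x false := by
    intro x hx heq
    simp only [hq, agr, hcl] at hk
    have h3 := (List.sum_eq_zero_iff_forall_eq_nat.1 hk)
      (((List.range 1).filter fun u => f.getD (x * 1 + u) false == (C.getD k []).getD x false).length)
      (List.mem_map.2 ⟨x, List.mem_range.2 hx, rfl⟩)
    rw [List.length_eq_zero_iff, List.filter_eq_nil_iff] at h3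
    apply h3 0 (by simp)
    rw [mul_one, add_zero, heq]
    exact beq_self_eq_true _
  rw [hw]
  refine ⟨by rw [← hCl]; exact h1, ?_⟩
  intro hall
  obtain ⟨x, hx, hwin⟩ := hA l (by rw [hl]; simp) (by
    intro p hp
    obtain ⟨x, -, rfl⟩ := List.mem_map.1 hp
    refine ⟨(horg x).1, ?_⟩
    have := (horg x).2.1
    simp only
    omega)
  have hgl : l.getD x ([], 0) = (org n v (sel C x ts), 0) := by
    rw [hl, List.getD_eq_getElem _ _ (by simpa using hx), List.getElem_map, List.getElem_range]
  rw [hgl] at hwin
  simp only at hwin
  have hwv : win (org n v (sel C x ts)) 0 = f.getD x false := by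
    refine ((hSOL _ (horg x).1).2 0 ?_ _).1 hwin
    have := (horg x).2.1
    omega
  have hc : win (org n v (sel C x ts)) 0 = (C.getD k []).getD x false := by
    rw [Bool.eq_iff_iff, (horg x).2.2, (hSLC C x ts (by rw [hts, hCl])).2.2
      (fun t => win t v = true)]
    constructor
    · rintro ⟨k', hk', h5, h6⟩
      have := (hall k' (by rw [← hCl]; exact hk')).1 h6
      rw [← this]
      exact h5
    · intro h5
      exact ⟨k, h1, h5, (hall k (by rw [← hCl]; exact h1)).2 rfl⟩
  exact hne x hx (hwv.symm.trans hc)

end Pool.PG
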